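import Mathlib
import Pool.Agent.H67Q.SchedDefs
import Pool.Agent.H67Q.SchedLower
import Pool.Agent.H67Q.SchedUpper

/-!
MP_2c6a66_lc, truthful in expectation part: `3/2 ≤ ρ_TE ≤ 1.506`.
-/

namespace Pool.Agent.Results.MP_2c6a66_lc.TruthfulInExpectation

open H67Q.Sched

/-- The optimal approximation ratio `ρ_TE` of truthful-in-expectation mechanisms for makespan
minimisation on two unrelated machines lies between `1.5` and `1.506`. -/
theorem result : 3 / 2 ≤ rhoTE ∧ rhoTE ≤ 1506 / 1000 := by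
  have hup : ∀ n : ℕ, 1 ≤ n → ∃ M : Mechanism n,
      M.TruthfulInExpectation ∧ M.HasRatio (1506 / 1000) :=
    fun n _ => ⟨mech n, mech_truthful n, mech_ratio n⟩
  have hlow : ∀ c ∈ {c : ℝ | ∀ n : ℕ, 1 ≤ n → ∃ M : Mechanism n,
      M.TruthfulInExpectation ∧ M.HasRatio c}, 3 / 2 ≤ c := by
    intro c hc
    obtain ⟨M, hT, hR⟩ := hc 3 (by norm_num)
    exact ratio_ge M hT hR
  exact ⟨le_csInf ⟨_, hup⟩ hlow, csInf_le ⟨3 / 2, hlow⟩ hup⟩

end Pool.Agent.Results.MP_2c6a66_lc.TruthfulInExpectation
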